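import Pool.Agent.N922.PQ.Stm2

/-!
Project PV (helper922), part PLM2 (helper559): the local image is a group, over any field
(adapted from the part LOC2 of helper803)
-/

set_option autoImplicit false

open Polynomial
open scoped Classical

namespace Pool.Agent.N559.PV

open Pool.Agent.N922.PQ

variable {F : Type} [Field F]

theorem gff_nd (a b : ℤ) : (ff F a b).natDegree = 3 := by
  unfold ff; compute_degree!

theorem gff_monic (a b : ℤ) : (ff F a b).Monic := by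
  unfold ff; monicity!

theorem gff_ne (a b : ℤ) : ff F a b ≠ 0 := (gff_monic a b).ne_zero

theorem gff_irr {a b : ℤ} (h : ∀ x : F, x ^ 3 + (a : F) * x + (b : F) ≠ 0) :
    Irreducible (ff F a b) := by
  refine ((gff_monic a b).irreducible_iff_roots_eq_zero_of_degree_le_three ?_ ?_).2 ?_
  · rw [gff_nd]; norm_num
  · rw [gff_nd]
  · rw [Multiset.eq_zero_iff_forall_notMem]
    intro x hx
    have h1 := (mem_roots (gff_ne a b)).1 hx
    refine h x ?_
    simpa [ff, IsRoot.def] using h1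

section fld

variable {a b : ℤ}

/-- The image of the local condition in the cubic algebra. -/
def PP (a b : ℤ) (α : AdjoinRoot (ff F a b)) : Prop :=
  (∃ g, α = g ^ 2) ∨ ∃ x y : F, y ≠ 0 ∧ y ^ 2 = x ^ 3 + a * x + b ∧
    ∃ g, (AdjoinRoot.of (ff F a b) x - AdjoinRoot.root (ff F a b)) * α = g ^ 2

theorem pl_iff (h : F[X]) : PL F a b h ↔ PP a b (AdjoinRoot.mk (ff F a b) h) := by
  have key : ∀ u : F[X], (∃ g : F[X], ff F a b ∣ u - g ^ 2) ↔
      ∃ g, AdjoinRoot.mk (ff F a b) u = g ^ 2 := by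
    intro u
    constructor
    · rintro ⟨g, hg⟩
      exact ⟨AdjoinRoot.mk _ g, by rw [← map_pow]; exact AdjoinRoot.mk_eq_mk.2 hg⟩
    · rintro ⟨g, hg⟩
      obtain ⟨g, rfl⟩ := AdjoinRoot.mk_surjective g
      rw [← map_pow] at hg
      exact ⟨g, AdjoinRoot.mk_eq_mk.1 hg⟩
  unfold PL PP
  refine or_congr (key h) ?_
  refine exists_congr fun x => exists_congr fun y => and_congr_right fun _ =>
    and_congr_right fun _ => ?_
  have := key ((C x - X) * h)
  rw [map_mul, map_sub, AdjoinRoot.mk_C, AdjoinRoot.mk_X] at this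
  exact this

theorem root_eq : AdjoinRoot.root (ff F a b) ^ 3 + AdjoinRoot.of (ff F a b) (a : F) *
    AdjoinRoot.root (ff F a b) + AdjoinRoot.of (ff F a b) (b : F) = 0 := by
  have h : AdjoinRoot.mk (ff F a b) (ff F a b) = 0 := AdjoinRoot.mk_self
  conv_lhs at h => rw [show AdjoinRoot.mk (ff F a b) (ff F a b) = AdjoinRoot.mk (ff F a b)
    (X ^ 3 + C (a : F) * X + C (b : F)) from rfl]
  rwa [map_add, map_add, map_mul, map_pow, AdjoinRoot.mk_C, AdjoinRoot.mk_C, AdjoinRoot.mk_X] at h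

end fld

theorem pp_mul {a b : ℤ} (h : ∀ x : F, x ^ 3 + (a : F) * x + (b : F) ≠ 0)
    {α β : AdjoinRoot (ff F a b)} (hα : PP a b α) (hβ : PP a b β) : PP a b (α * β) := by
  have : Fact (Irreducible (ff F a b)) := ⟨gff_irr h⟩
  obtain ⟨ϑ, hϑ⟩ : ∃ t, t = AdjoinRoot.root (ff F a b) := ⟨_, rfl⟩
  obtain ⟨ι, hι⟩ : ∃ t, t = AdjoinRoot.of (ff F a b) := ⟨_, rfl⟩
  have hr := root_eq (F := F) (a := a) (b := b)
  unfold PP at *
  simp only [← hϑ, ← hι] at hα hβ hr ⊢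
  have hne : ∀ x y : F, y ≠ 0 → y ^ 2 = x ^ 3 + a * x + b → ι x - ϑ ≠ 0 := by
    intro x y hy hxy h0
    have e : ϑ = ι x := (sub_eq_zero.1 h0).symm
    rw [e, ← map_pow, ← map_mul, ← map_add, ← map_add, ← hxy, map_pow] at hr
    exact hy ((map_eq_zero ι).1 (pow_eq_zero_iff two_ne_zero |>.1 hr))
  rcases hα with ⟨g, hg⟩ | ⟨x₁, y₁, hy₁, hxy₁, g, hg⟩
  · rcases hβ with ⟨k, hk⟩ | ⟨x₂, y₂, hy₂, hxy₂, k, hk⟩
    · exact Or.inl ⟨g * k, by rw [hg, hk]; ring⟩
    · exact Or.inr ⟨x₂, y₂, hy₂, hxy₂, g * k, by rw [hg, mul_pow, ← hk]; ring⟩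
  · rcases hβ with ⟨k, hk⟩ | ⟨x₂, y₂, hy₂, hxy₂, k, hk⟩
    · exact Or.inr ⟨x₁, y₁, hy₁, hxy₁, g * k, by rw [hk, mul_pow, ← hg]; ring⟩
    · have h₁ := hne x₁ y₁ hy₁ hxy₁
      have h₂ := hne x₂ y₂ hy₂ hxy₂
      by_cases hx : x₁ = x₂
      · subst hx
        refine Or.inl ⟨g * k / (ι x₁ - ϑ), ?_⟩
        rw [div_pow, eq_div_iff (pow_ne_zero 2 h₁), mul_pow, ← hg, ← hk]
        ring
      · have hx' : x₂ - x₁ ≠ 0 := sub_ne_zero.2 (Ne.symm hx)
        obtain ⟨m, hm⟩ : ∃ m, m = (y₂ - y₁) / (x₂ - x₁) := ⟨_, rfl⟩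
        obtain ⟨c, hc⟩ : ∃ c, c = y₁ - m * x₁ := ⟨_, rfl⟩
        have e₁ : y₁ = m * x₁ + c := by rw [hc]; ring
        have e₂ : y₂ = m * x₂ + c := by
          rw [hc, hm]; field_simp; ring
        rw [e₁] at hxy₁
        rw [e₂] at hxy₂
        obtain ⟨x₃, hx₃⟩ : ∃ t, t = m ^ 2 - x₁ - x₂ := ⟨_, rfl⟩
        have hA : (a : F) - 2 * m * c = x₁ * x₂ + x₃ * (x₁ + x₂) := by
          have h5 : (x₂ - x₁) * ((a : F) - 2 * m * c - (x₁ * x₂ + x₃ * (x₁ + x₂))) = 0 := by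
            rw [hx₃]
            linear_combination hxy₁ - hxy₂
          have h6 := (mul_eq_zero.1 h5).resolve_left hx'
          linear_combination h6
        have hB : (b : F) - c ^ 2 = - (x₁ * x₂ * x₃) := by
          have h7 : (a : F) = 2 * m * c + (x₁ * x₂ + x₃ * (x₁ + x₂)) := by
            linear_combination hA
          rw [h7] at hxy₁
          rw [hx₃] at hxy₁ ⊢
          linear_combination -hxy₁
        have hxy₃ : (m * x₃ + c) ^ 2 = x₃ ^ 3 + a * x₃ + b := by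
          have h8 : m ^ 2 = x₁ + x₂ + x₃ := by rw [hx₃]; ring
          linear_combination x₃ ^ 2 * h8 - x₃ * hA - hB
        have hy₃ : m * x₃ + c ≠ 0 := by
          intro h0
          rw [h0] at hxy₃
          exact h x₃ (by rw [← hxy₃]; ring)
        refine Or.inr ⟨x₃, m * x₃ + c, hy₃, hxy₃,
          (ι m * ϑ + ι c) * g * k / ((ι x₁ - ϑ) * (ι x₂ - ϑ)), ?_⟩
        have hprod : (ι x₁ - ϑ) * (ι x₂ - ϑ) * (ι x₃ - ϑ) = (ι m * ϑ + ι c) ^ 2 := by
          have hA' := congrArg ι hA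
          have hB' := congrArg ι hB
          have hC' := congrArg ι hx₃
          simp only [map_sub, map_mul, map_add, map_neg, map_pow, map_ofNat] at hA' hB' hC'
          linear_combination -hr + ϑ * hA' + hB' + ϑ ^ 2 * hC'
        rw [div_pow, eq_div_iff (pow_ne_zero 2 (mul_ne_zero h₁ h₂))]
        rw [mul_pow, mul_pow, mul_pow, ← hg, ← hk, ← hprod]
        ring

/-- **Part PLM2.** -/
theorem plm2 : S_PLM2 := by
  intro F _ _ a b _ h0 h h' hh hh'
  rw [pl_iff] at *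
  rw [map_mul]
  exact pp_mul h0 hh hh'

end Pool.Agent.N559.PV
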